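import Mathlib
import Pool.Agent.H5R2.ON.MS
import Pool.Agent.H5R2.ON.Sym
import Pool.Agent.H12R2.ON.LocRot
import Pool.Agent.H12R2.ON.Profile

/-!
# Power law upper bound with the exponent `N / (4 π β)` (conditional on the discrete potential)
-/

set_option autoImplicit false

noncomputable section

namespace Pool.Agent.H12R2.ON

open MeasureTheory Metric ComplexConjugate Pool.Agent.H5R2.ON

/-- Existence of the two-centred logarithmic potential on all tori with the growth constant `V`. -/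
def DiscP (δ V : ℝ) : Prop := ∃ K : ℝ, 0 < K ∧ ∀ (L : ℕ) [NeZero L] (x y : Tor L),
    16 ≤ tnorm (x - y) → ∃ a : Tor L → ℝ,
      2 * δ * Real.log (tnorm (x - y)) - K ≤ a x - a y ∧
      (∀ z, 0 ≤ Wt a z) ∧
      (∀ z, Wt a z ≤ K / (1 + dd x y z) ^ 2) ∧
      (∀ z, tnorm (x - y) ≤ dd x y z → Wt a z = 0) ∧
      (∀ ρ : ℝ, 1 ≤ ρ → ∑ z ∈ Finset.univ.filter (fun z => dd x y z < ρ), Wt a z ≤
        V * Real.log ρ + K)

theorem dd_nonneg {L : ℕ} (x y z : Tor L) : 0 ≤ dd x y z :=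
  le_min (tnorm_nonneg _) (tnorm_nonneg _)

theorem dd_le_add {L : ℕ} [NeZero L] (x y z u : Tor L) :
    dd x y z ≤ dd x y u + tnorm (u - z) := by
  have h : ∀ v : Tor L, tnorm (z - v) ≤ tnorm (u - v) + tnorm (u - z) := by
    intro v
    have := tnorm_add_le (u - v) (z - u)
    rw [show u - v + (z - u) = z - v by abel, tnorm_sub_comm z u] at this
    exact this
  unfold dd
  rw [← min_add_add_right]
  exact min_le_min (h x) (h y)

theorem cost_small (β K η : ℝ) (hβ : 0 < β) (hK : 0 < K) (hη : 0 < η) :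
    ∃ (M : ℕ) (R : ℝ), 1 ≤ M ∧ 1 ≤ R ∧ ∀ (L : ℕ) [NeZero L] (x y : Tor L) (w : Tor L → ℝ),
      (∀ u, w u ≤ K / (1 + dd x y u) ^ 2) → ∀ z, R ≤ dd x y z → cost β w (psi M z) ≤ η := by
  obtain ⟨C, hC, hprof⟩ := profile
  obtain ⟨B, hB, hcard⟩ := card_ball_le
  obtain ⟨M, hM⟩ := exists_nat_ge (1 + 2 * (β * (Real.pi / 4) ^ 2 * C) / η)
  have hpos : 0 ≤ 2 * (β * (Real.pi / 4) ^ 2 * C) / η := by positivity
  have hM1' : (1 : ℝ) ≤ M := by linarith
  have hM1 : 1 ≤ M := by exact_mod_cast hM1'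
  have hM0 : (0 : ℝ) < M := by linarith
  set X : ℝ := 1 + 4 * β * (B * (1 + 2 ^ M) ^ 2 * K) / η with hX
  have hX0 : 0 ≤ 4 * β * (B * (1 + 2 ^ M) ^ 2 * K) / η := by positivity
  have hX1 : 1 ≤ X := by linarith
  refine ⟨M, 2 ^ M + X, hM1, ?_, ?_⟩
  · have : (0 : ℝ) < 2 ^ M := by positivity
    linarith
  intro L _ x y w hw z hz
  unfold cost
  have h1 : β * (Real.pi / 4) ^ 2 * ∑ u : Tor L, ((psi M z u - psi M z (u + (1, 0))) ^ 2 +
      (psi M z u - psi M z (u + (0, 1))) ^ 2) ≤ η / 2 := by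
    have := mul_le_mul_of_nonneg_left (hprof L z M hM1)
      (show 0 ≤ β * (Real.pi / 4) ^ 2 by positivity)
    refine this.trans ?_
    rw [← mul_div_assoc, div_le_iff₀ hM0]
    have h2 : 2 * (β * (Real.pi / 4) ^ 2 * C) / η ≤ M := by linarith
    rw [div_le_iff₀ hη] at h2
    linarith
  have h2 : 2 * β * ∑ u ∈ Finset.univ.filter (fun u => psi M z u ≠ 0), w u ≤ η / 2 := by
    have hterm : ∀ u ∈ Finset.univ.filter (fun u => psi M z u ≠ 0), w u ≤ K / X := by
      intro u hu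
      have hu' := psi_ne_zero hM1 (Finset.mem_filter.1 hu).2
      have h3 : X ≤ dd x y u := by
        have := dd_le_add x y z u
        linarith
      refine (hw u).trans ?_
      have hd := dd_nonneg x y u
      apply div_le_div_of_nonneg_left hK.le (by linarith)
      nlinarith
    have hsub : (Finset.univ.filter (fun u => psi M z u ≠ 0)).card ≤
        (Finset.univ.filter (fun u : Tor L => tnorm (u - z) ≤ 2 ^ M)).card := by
      apply Finset.card_le_card
      intro u hu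
      exact Finset.mem_filter.2 ⟨Finset.mem_univ _, psi_ne_zero hM1 (Finset.mem_filter.1 hu).2⟩
    have hs := Finset.sum_le_card_nsmul _ _ _ hterm
    rw [nsmul_eq_mul] at hs
    have hX' : 0 < X := by linarith
    have hcc : ((Finset.univ.filter (fun u => psi M z u ≠ 0)).card : ℝ) ≤ B * (1 + 2 ^ M) ^ 2 := by
      refine le_trans ?_ (hcard L z (2 ^ M) (by positivity))
      exact_mod_cast hsub
    have h4 : ∑ u ∈ Finset.univ.filter (fun u => psi M z u ≠ 0), w u ≤
        B * (1 + 2 ^ M) ^ 2 * (K / X) :=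
      hs.trans (mul_le_mul_of_nonneg_right hcc (by positivity))
    have h5 : 2 * β * (B * (1 + 2 ^ M) ^ 2 * (K / X)) ≤ η / 2 := by
      have e : 2 * β * (B * (1 + 2 ^ M) ^ 2 * (K / X)) =
          (2 * β * (B * (1 + 2 ^ M) ^ 2 * K)) / X := by ring
      rw [e, div_le_iff₀ hX']
      have h6 : 4 * β * (B * (1 + 2 ^ M) ^ 2 * K) / η ≤ X := by linarith
      rw [div_le_iff₀ hη] at h6
      linarith
    exact (mul_le_mul_of_nonneg_left h4 (by positivity)).trans h5
  linarith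

theorem decay_of (n : ℕ) {β δ V ε : ℝ} (hβ : 0 < β) (hV : 0 ≤ V) (hε : 0 < ε)
    (h : DiscP δ V) : ∃ C : ℝ, 0 < C ∧ ∀ (L : ℕ) [NeZero L] (x y : Tor L), 16 ≤ tnorm (x - y) →
      ‖∫ S, zeta (S x) * conj (zeta (S y)) ∂(gm (n + 2) L β)‖ ≤
        C * tnorm (x - y) ^ (-(2 * δ) + β * ((2 / (n + 2 : ℝ) + ε) * V)) := by
  obtain ⟨K, hK, hdisc⟩ := h
  obtain ⟨M, R, hM, hR, hcost⟩ := cost_small β K (ε ^ 2 / 4) hβ hK (by positivity)
  set q : ℝ := 2 / (n + 2 : ℝ) + ε with hq
  have hq0 : 0 < q := by positivity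
  refine ⟨Real.exp (K + β * (q * K + (V * Real.log R + K))), Real.exp_pos _, ?_⟩
  intro L _ x y hxy
  obtain ⟨a, ha, hW0, hWK, hWz, hWs⟩ := hdisc L x y hxy
  set d := tnorm (x - y) with hd
  have hd0 : 0 < d := by linarith
  have hms := ms n L β hβ.le 1 a x y
  simp only [pow_one, Nat.cast_one, one_mul] at hms
  set m : Tor L → ℝ := fun z => if R ≤ dd x y z then q else 1 with hm
  have hexp := exp_moment' (n := n) hβ.le (Wt a) m hW0 (fun z => by
    by_cases hz : R ≤ dd x y z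
    · refine Or.inr (Or.inr ⟨psi M z, ε ^ 2 / 4, psi_center M z, by positivity,
        hcost L x y (Wt a) hWK z hz, ?_⟩)
      rw [hm]
      simp only [if_pos hz]
      have : Real.sqrt (ε ^ 2 / 4) = ε / 2 := by
        rw [show ε ^ 2 / 4 = (ε / 2) ^ 2 by ring, Real.sqrt_sq (by positivity)]
      rw [this, hq]
      linarith
    · left
      rw [hm]
      simp only [if_neg hz]
      exact le_refl 1)
  have hsum : ∑ z, Wt a z * m z ≤ q * (V * Real.log d + K) + (V * Real.log R + K) := by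
    have h1 : ∀ z ∈ (Finset.univ : Finset (Tor L)), Wt a z * m z ≤
        q * (if dd x y z < d then Wt a z else 0) + (if dd x y z < R then Wt a z else 0) := by
      intro z _
      rw [hm]
      simp only
      by_cases hz : R ≤ dd x y z
      · rw [if_pos hz, if_neg (not_lt.2 hz)]
        by_cases hz2 : dd x y z < d
        · rw [if_pos hz2]; linarith
        · rw [if_neg hz2, hWz z (not_lt.1 hz2)]; simp
      · rw [if_neg hz, if_pos (not_le.1 hz)]
        have : 0 ≤ q * (if dd x y z < d then Wt a z else 0) := by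
          split_ifs
          · exact mul_nonneg hq0.le (hW0 z)
          · simp
        linarith
    refine (Finset.sum_le_sum h1).trans ?_
    rw [Finset.sum_add_distrib, ← Finset.mul_sum, ← Finset.sum_filter, ← Finset.sum_filter]
    exact add_le_add (mul_le_mul_of_nonneg_left (hWs d (by linarith)) hq0.le) (hWs R hR)
  refine hms.trans ?_
  have h1 : Real.exp (-(a x - a y)) *
      ∫ S, Real.exp (β * ∑ z, Wt a z * ‖zeta (S z)‖ ^ 2) ∂(gm (n + 2) L β) ≤
      Real.exp (-(2 * δ * Real.log d - K)) *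
        Real.exp (β * (q * (V * Real.log d + K) + (V * Real.log R + K))) := by
    apply mul_le_mul (Real.exp_le_exp.2 (by linarith)) _ _ (Real.exp_pos _).le
    · exact hexp.trans (Real.exp_le_exp.2 (mul_le_mul_of_nonneg_left hsum hβ.le))
    · exact integral_nonneg fun S => (Real.exp_pos _).le
  refine h1.trans_eq ?_
  rw [Real.rpow_def_of_pos hd0, ← Real.exp_add, ← Real.exp_add]
  congr 1
  ring

theorem isProb_gm (n L : ℕ) [NeZero L] (β : ℝ) : IsProbabilityMeasure (gm (n + 2) L β) :=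
  gm_isProbabilityMeasure (n + 2) L (by omega) β

theorem abs_corr_le (n L : ℕ) [NeZero L] (β : ℝ) (x y : Tor L) :
    |∫ S, inner ℝ (S x : EuclideanSpace ℝ (Fin (n + 2))) (S y) ∂(gm (n + 2) L β)| ≤ 1 := by
  have := isProb_gm n L β
  rw [← Real.norm_eq_abs]
  refine (norm_integral_le_of_norm_le_const (C := 1)
    (Filter.Eventually.of_forall fun S => ?_)).trans ?_
  · rw [Real.norm_eq_abs]; exact abs_inner_le _ _
  · simp

/-- **Main theorem** (conditional on the discrete potential). -/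
theorem main_of (hdisc : ∀ δ : ℝ, 0 < δ → DiscP δ (2 * Real.pi * δ ^ 2)) (n : ℕ) (β κ : ℝ)
    (hβ : 0 < β) (hκ : κ < (n + 2 : ℝ) / 2) :
    ∃ C : ℝ, ∀ (L : ℕ) [NeZero L] (x y : Tor L),
      |∫ S, inner ℝ (S x : EuclideanSpace ℝ (Fin (n + 2))) (S y) ∂(gm (n + 2) L β)| ≤
        C * (1 + tnorm (x - y)) ^ (-(κ / (2 * Real.pi * β))) := by
  have hpi := Real.pi_pos
  -- reduction to `κ ≥ 0`
  wlog hκ0 : 0 ≤ κ generalizing κ with H
  · push_neg at hκ0
    obtain ⟨C, hC⟩ := H 0 (by positivity) le_rfl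
    refine ⟨|C|, fun L _ x y => (hC L x y).trans ?_⟩
    have ht := tnorm_nonneg (x - y)
    have h1 : (1 + tnorm (x - y)) ^ (-((0 : ℝ) / (2 * Real.pi * β))) ≤
        (1 + tnorm (x - y)) ^ (-(κ / (2 * Real.pi * β))) := by
      apply Real.rpow_le_rpow_of_exponent_le (by linarith)
      rw [zero_div, neg_zero, neg_nonneg]
      exact div_nonpos_of_nonpos_of_nonneg hκ0.le (by positivity)
    exact (mul_le_mul_of_nonneg_right (le_abs_self C) (by positivity)).trans
      (mul_le_mul_of_nonneg_left h1 (abs_nonneg C))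
  set N : ℝ := (n + 2 : ℝ) with hN
  have hN0 : 0 < N := by positivity
  set δ : ℝ := N / (4 * Real.pi * β) with hδ
  have hδ0 : 0 < δ := by positivity
  set ε : ℝ := 4 * (N / 2 - κ) / N ^ 2 with hε
  have hε0 : 0 < ε := by
    have : 0 < N / 2 - κ := by linarith
    positivity
  obtain ⟨C, hC0, hC⟩ := decay_of n hβ (by positivity : (0 : ℝ) ≤ 2 * Real.pi * δ ^ 2) hε0
    (hdisc δ hδ0)
  set p : ℝ := κ / (2 * Real.pi * β) with hp
  have hp0 : 0 ≤ p := by positivity
  have hexp : -(2 * δ) + β * ((2 / (n + 2 : ℝ) + ε) * (2 * Real.pi * δ ^ 2)) = -p := by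
    rw [← hN, hp, hε, hδ]
    field_simp
    ring
  rw [hexp] at hC
  refine ⟨17 ^ p + N / 2 * C * 2 ^ p, fun L _ x y => ?_⟩
  set d := tnorm (x - y) with hd
  have hd0 : 0 ≤ d := tnorm_nonneg _
  have hA : 0 < (1 + d) ^ (-p) := Real.rpow_pos_of_pos (by linarith) _
  by_cases h16 : 16 ≤ d
  · have h1 := hC L x y h16
    have h2 : |∫ S, inner ℝ (S x : EuclideanSpace ℝ (Fin (n + 2))) (S y) ∂(gm (n + 2) L β)| ≤
        N / 2 * (C * d ^ (-p)) := by
      rw [inner_eq, abs_mul, abs_of_pos (by positivity : 0 < (n + 2 : ℝ) / 2)]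
      refine mul_le_mul_of_nonneg_left ?_ (by positivity)
      exact (Complex.abs_re_le_norm _).trans h1
    have h3 : d ^ (-p) ≤ 2 ^ p * (1 + d) ^ (-p) := by
      have h4 : (2 * d) ^ (-p) ≤ (1 + d) ^ (-p) := by
        apply Real.rpow_le_rpow_of_nonpos (by linarith) (by linarith) (by linarith)
      rw [Real.mul_rpow (by norm_num) hd0] at h4
      have h5 : (2 : ℝ) ^ p * (2 : ℝ) ^ (-p) = 1 := by
        rw [← Real.rpow_add (by norm_num), add_neg_cancel, Real.rpow_zero]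
      calc d ^ (-p) = 2 ^ p * (2 ^ (-p) * d ^ (-p)) := by rw [← mul_assoc, h5, one_mul]
        _ ≤ 2 ^ p * (1 + d) ^ (-p) := mul_le_mul_of_nonneg_left h4 (by positivity)
    calc _ ≤ N / 2 * (C * d ^ (-p)) := h2
      _ ≤ N / 2 * (C * (2 ^ p * (1 + d) ^ (-p))) := by gcongr
      _ ≤ (17 ^ p + N / 2 * C * 2 ^ p) * (1 + d) ^ (-p) := by
          have : 0 ≤ (17 : ℝ) ^ p * (1 + d) ^ (-p) := by positivity
          linarith
  · push_neg at h16
    refine (abs_corr_le n L β x y).trans ?_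
    have h1 : (17 : ℝ) ^ (-p) ≤ (1 + d) ^ (-p) :=
      Real.rpow_le_rpow_of_nonpos (by linarith) (by linarith) (by linarith)
    have h2 : (17 : ℝ) ^ p * (17 : ℝ) ^ (-p) = 1 := by
      rw [← Real.rpow_add (by norm_num), add_neg_cancel, Real.rpow_zero]
    calc (1 : ℝ) = 17 ^ p * 17 ^ (-p) := h2.symm
      _ ≤ 17 ^ p * (1 + d) ^ (-p) := mul_le_mul_of_nonneg_left h1 (by positivity)
      _ ≤ (17 ^ p + N / 2 * C * 2 ^ p) * (1 + d) ^ (-p) := by
          have : 0 ≤ N / 2 * C * 2 ^ p * (1 + d) ^ (-p) := by positivity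
          linarith

end Pool.Agent.H12R2.ON
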