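import Pool.Agent.H12R2.ON.Final
import Pool.Agent.H5R2.ON.Disc2

/-!
# Power law upper bound for the two-dimensional `N`-vector model with the exponent `N / (4 π β)`
-/

set_option autoImplicit false

noncomputable section

namespace Pool.Agent.H12R2.ON

open MeasureTheory Pool.Agent.H5R2.ON

/-- For every `N ≥ 2`, `β > 0` and `κ < N / 2`, the two-point function of the `N`-vector model on
every torus is at most `C (1 + |x - y|)^(-κ/(2πβ))`. -/
theorem main2 (N : ℕ) (hN : 2 ≤ N) (β κ : ℝ) (hβ : 0 < β) (hκ : κ < (N : ℝ) / 2) :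
    ∃ C : ℝ, ∀ (L : ℕ) [NeZero L] (x y : Tor L),
      |∫ S, inner ℝ (S x : EuclideanSpace ℝ (Fin N)) (S y) ∂(gm N L β)| ≤
        C * (1 + tnorm (x - y)) ^ (-(κ / (2 * Real.pi * β))) := by
  obtain ⟨n, rfl⟩ := Nat.exists_eq_add_of_le' hN
  refine main_of (fun δ hδ => disc2 δ hδ) n β κ hβ ?_
  push_cast at hκ
  exact hκ

end Pool.Agent.H12R2.ON

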